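import Pool.Agent.H43.PJ.M05

/-!
# EHB Basic: elementary facts on `ee`, `FF`, `ks`

Everything follows from `LSa_ee_add`, `LSa_norm_ee`, `LSa_conj_ee`, `LSa_int_ee`, `LSa_parseval` of
`Pool/Agent/H91/PK/LSa.lean` (for `FF_parseval` take `c = 0`, `s = Icc 1 N`, `b n = f n`).
`sum_inv_ks`: the sum is `2 ∑_{k ≤ K} 1/k ≤ 2 (1 + log K)` (`harmonic_le_one_add_log`).
-/

set_option autoImplicit false

namespace Pool.Agent.H76.EHB

open Finset MeasureTheory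
open Pool.Agent.H91.PK (ee)

theorem continuous_ee : Continuous ee := by
  unfold ee
  fun_prop

theorem ee_int (j : ℤ) : ee j = 1 := by
  unfold ee
  rw [Complex.exp_eq_one_iff]
  refine ⟨j, ?_⟩
  push_cast
  ring

theorem ee_add_int (t : ℝ) (j : ℤ) : ee (t + j) = ee t := by
  rw [Pool.Agent.H91.PK.LSa_ee_add, ee_int, mul_one]

theorem FF_add_int (f : ℕ → ℝ) (N : ℕ) (θ : ℝ) (j : ℤ) : FF f N (θ + j) = FF f N θ := by
  unfold FF
  refine sum_congr rfl fun n _ => ?_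
  have h : (n : ℝ) * (θ + j) = n * θ + (((n : ℤ) * j : ℤ) : ℝ) := by
    push_cast
    ring
  rw [h, ee_add_int]

theorem FF_continuous (f : ℕ → ℝ) (N : ℕ) : Continuous (FF f N) := by
  unfold FF
  refine continuous_finsetSum _ fun n _ => ?_
  exact continuous_const.mul (continuous_ee.comp (continuous_const.mul continuous_id))

theorem norm_FF_le (f : ℕ → ℝ) (N : ℕ) (θ : ℝ) : ‖FF f N θ‖ ≤ ∑ n ∈ Icc 1 N, |f n| := by
  unfold FF
  refine (norm_sum_le _ _).trans (le_of_eq (sum_congr rfl fun n _ => ?_))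
  rw [norm_mul, Pool.Agent.H91.PK.LSa_norm_ee, mul_one, Complex.norm_real, Real.norm_eq_abs]

/-- Cauchy-Schwarz -/
theorem norm_FF_sq_le (f : ℕ → ℝ) (N : ℕ) (θ : ℝ) : ‖FF f N θ‖ ^ 2 ≤ N * S2 f N := by
  have h1 : ‖FF f N θ‖ ^ 2 ≤ (∑ n ∈ Icc 1 N, |f n|) ^ 2 :=
    pow_le_pow_left₀ (norm_nonneg _) (norm_FF_le f N θ) 2
  refine h1.trans ((sq_sum_le_card_mul_sum_sq).trans (le_of_eq ?_))
  unfold S2
  rw [Nat.card_Icc, Nat.add_sub_cancel]
  simp only [sq_abs]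

theorem FF_parseval (f : ℕ → ℝ) (N : ℕ) (x : ℝ) :
    ∫ t in x..(x + 1), ‖FF f N t‖ ^ 2 = S2 f N := by
  have h := Pool.Agent.H91.PK.LSa_parseval (Icc 1 N) (fun n => (f n : ℂ)) 0 x
  simp only [sub_zero, Complex.norm_real, Real.norm_eq_abs, sq_abs] at h
  exact h

theorem S2_nonneg (f : ℕ → ℝ) (N : ℕ) : 0 ≤ S2 f N := Finset.sum_nonneg fun _ _ => sq_nonneg _

end Pool.Agent.H76.EHB
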